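import Pool.Agent.H.MP_013c33_an.A

namespace Pool.Agent.Results.MP_013c33_an.Yes

open Pool.Agent.Lib.helper23.BL Pool.Agent.H.MP_013c33_an TopologicalSpace

theorem result (K : Type*) [TopologicalSpace K] [CompactSpace K] [T2Space K] (h : Sick K) :
    Sick (Stone (Clopens K)) := by
  obtain ⟨E, _, u, T, _, h0, h1, h2, h3, h4, rfl⟩ := h
  let S : C(Stone (Clopens K), ℝ) →ₗ[ℝ] E :=
    { toFun := fun a => T (a.comp (pt K))
      map_add' := fun a b => by rw [← map_add]; rfl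
      map_smul' := fun c a => by rw [← map_smul]; rfl }
  have s1 : ∀ f g, S (f ⊔ g) = S f ⊔ S g := fun f g => h3 (f.comp _) (g.comp _)
  have s2 : ∀ f g, S (f ⊓ g) = S f ⊓ S g := fun f g => h4 (f.comp _) (g.comp _)
  let L : ClosedSub E :=
    { sub := (LinearMap.range S).topologicalClosure
      closed := Submodule.isClosed_topologicalClosure _
      sup_mem := fun a ha b hb => map_mem_closure₂ continuous_sup ha hb (by
        rintro _ ⟨f, rfl⟩ _ ⟨g, rfl⟩
        exact ⟨_, s1 f g⟩)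
      inf_mem := fun a ha b hb => map_mem_closure₂ continuous_inf ha hb (by
        rintro _ ⟨f, rfl⟩ _ ⟨g, rfl⟩
        exact ⟨_, s2 f g⟩) }
  let S' : C(Stone (Clopens K), ℝ) →ₗ[ℝ] L.Carrier := S.codRestrict L.sub fun f =>
    (LinearMap.range S).le_topologicalClosure ⟨f, rfl⟩
  have := UniformSpace.secondCountable_of_separable E
  refine ⟨L.Carrier, inferInstance, S' 1, S', (inferInstance : SeparableSpace L.sub), h0,
    fun f g k => ContinuousMap.ext fun z => ?_, Set.ext fun y => ⟨?_, ?_⟩,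
    fun f g => Subtype.ext (s1 f g), fun f g => Subtype.ext (s2 f g), rfl⟩
  · obtain ⟨x, rfl⟩ := pt_surj z
    exact DFunLike.congr_fun (h1 (congrArg Subtype.val k)) x
  · rintro ⟨f, rfl⟩
    exact h2.le ⟨f.comp (pt K), rfl⟩
  · intro hy
    obtain ⟨f, hf⟩ := h2.ge (show y.1 ∈ _ from hy)
    obtain ⟨g, hg⟩ := factor h3 h4 h1 (fun y hy => H.MP_1eaa31_an.ideal h2 hy) f fun ε hε => by
      obtain ⟨_, ⟨g, rfl⟩, k⟩ := Metric.mem_closure_iff.1 y.2 ε hε
      exact ⟨g, by rwa [hf, ← dist_eq_norm]⟩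
    exact ⟨g, Subtype.ext ((congrArg T hg).trans hf)⟩

end Pool.Agent.Results.MP_013c33_an.Yes
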